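import Pool.Agent.helper32.EXC.Defs11

/-!
# Project EXC (MP_561ff4_al), block `r = 11` in `E₈(q)`: the rows

RULES. Row `XXX`: file `Pool/Agent/<seat>/EXC/T11XXX.lean`, `import Pool.Agent.helper32.EXC.Spec11`, `set_option autoImplicit false`, `open Finset`,
`namespace Pool.Agent.EXC`, theorem line exactly as in the lock note (other rows only as hypotheses; rows of helper17's `Spec` may be used as
hypotheses in the same way), auxiliary lemmas prefixed `T11XXX_`. Free lemmas: `Basic.lean`, `Defs.lean` of helper17 (bilinearity of `ip`, `br`, `fm`; `br_E_E`, `fm_E_E`,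
`cf_E`, `Lm_ext`, signs) and all of `Defs11.lean` (finite checks). No straight double quotes, no convert / congr!. Land, note DONE + path, one line to helper32.

THEOREM (last row): for every finite field `F` and every automorphism `x ≠ 1` of `E₈(F)` which permutes the root subgroups, 10 conjugates of `x` generate a group of
order divisible by 11.
-/

set_option autoImplicit false

open Finset

namespace Pool.Agent.EXC

/-! ## A. General rows -/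

/-- **TPR** (short). uses: NBR, WPG, RFL. The type of a pair of root vectors: NBR (second part) with `α' = θ`: `WP C (α, β) (θ, β')`; the product is preserved (RFL, induction on the chain), WPG gives `k` with `k E α = ± E θ`, `k E β = ± E β'`. -/
def T11TPR_stmt : Prop := ∀ (n : ℕ) (C : Matrix (Fin n) (Fin n) ℤ) [IsC C] (F : Type) [Field F] (j0 : Fin n) (θ : Fin n → ℤ) (δ : Fin 5 → Fin n),
  IsE C j0 θ δ → ∀ α β : Fin n → ℤ, ip C α α = 2 → ip C β β = 2 → Tp C θ (E C α : Lm C F) (E C β) (ip C α β)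

/-- **XGS** (short). uses: EXF, XAU. The chosen root elements. EXF: `Ex (E α)`, so there is `h` with `IsX C (E C α) t h`, so `XG C α t` has this property (`Exists.choose_spec`); a linear map with it is unique; `XG α t ∈ GE` (generator); inverse: `x_α(-t) x_α(t) = x_α(0) = 1` (XAU (1)). -/
def T11XGS_stmt : Prop := ∀ (n : ℕ) (C : Matrix (Fin n) (Fin n) ℤ) [IsC C] (F : Type) [Field F],
  (∀ α, ip C α α = 2 → ∃ β, ip C β β = 2 ∧ ip C α β = -1) → ∀ α, ip C α α = 2 → ∀ t : F,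
  IsX C (E C α) t (XG C α t) ∧ XG C α t ∈ GE C F ∧ (XG C α t)⁻¹ = XG C α (-t)

/-- **CNJ** (medium). uses: THT, WPG, RHO, LIF, EXF. `GE` is transitive on the pairs of extremal vectors of type `m ∈ {-2,-1,0}` with given `fm`. `k a = c E θ`, `k b = c' E β`, `(θ,β) = m`. THT + WPG (`(c,d) = (1,0), (1,2), (2,3)`, `(ρ_01, ρ_cd) = m` by RHO): `a ~ κ E ρ_01`, `b ~ κ' E ρ_cd`; in the same way `a' ~ λ E ρ_01`, `b' ~ λ' E ρ_cd`.
A lift (LIF) of a diagonal matrix `d` of determinant `1` maps `E ρ_ab` to `(d_a / d_b) E ρ_ab` (`io (single a b 1) = η_ab E ρ_ab`, `Rm`). `r = λ/κ`, `r' = λ'/κ'`: `m = -2`: `κ κ' = λ λ'` (`fm` is invariant, EXF `Au.fm`; `fm_E_E`), `d = (r,1,1,1,1,1/r)`; `m = -1`: `d = (r, 1, 1/r', 1, 1, r'/r)`; `m = 0`: `d = (r, 1, r', 1, 1, 1/(r r'))`. -/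
def T11CNJ_stmt : Prop := ∀ (n : ℕ) (C : Matrix (Fin n) (Fin n) ℤ) [IsC C] (F : Type) [Field F] (j0 : Fin n) (θ : Fin n → ℤ) (δ : Fin 5 → Fin n),
  IsE C j0 θ δ → ∀ (a b a' b' : Lm C F) (m : ℤ), (m = -2 ∨ m = -1 ∨ m = 0) → Tp C θ a b m → Tp C θ a' b' m → fm C a b = fm C a' b' →
  ∃ g ∈ GE C F, g a = a' ∧ g b = b'

/-- **RK1** (medium). uses: LIF, EXF, RHO. Matrices of rank one and trace zero are extremal. Find `m ∈ SL_6(F)` with `vecMulVec u φ = m * single 0 1 c * m⁻¹`, `c ≠ 0` (columns of `m`: the first is `u`, `φ (m e_j) = 0` for `j ≠ 1`, `φ (m e_1) ≠ 0`; take `w` with `φ w = 1`, extend `u` to a basis of `ker φ`,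
or: first `u = m₁ e_0` for some `m₁ ∈ SL_6`, replace `φ` by `φ m₁` with `φ 0 = 0`, then take `m₂` fixing `e_0` with `φ m₂ = c e_1*`; or use a suitable form of CJG). A lift `h ∈ GE` (LIF): `h (io (single 0 1 c)) = io (vecMulVec u φ)`, `io (single 0 1 c) = -c E ρ_01`. -/
def T11RK1_stmt : Prop := ∀ (n : ℕ) (C : Matrix (Fin n) (Fin n) ℤ) [IsC C] (F : Type) [Field F] (j0 : Fin n) (θ : Fin n → ℤ) (δ : Fin 5 → Fin n),
  IsE C j0 θ δ → ∀ u φ : Fin 6 → F, u ≠ 0 → φ ≠ 0 → ∑ i, φ i * u i = 0 → Ex C (io C δ (Matrix.vecMulVec u φ))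

/-- **BEX** (medium). uses: T11RK1, IOT, RHO, THT, WPG, PCL, TPF, RFL, EXF. For independent extremal `c, c'` there is an extremal `b` with prescribed `fm c b`, `fm c' b`. PCL: type `m`, `m ≠ 2` (TPF). `c ~ κ E ρ_01`, `c' ~ κ' E ρ_cd` with `(c,d) = (1,0), (1,2), (2,3), (0,2)` for `m = -2, -1, 0, 1` (RHO; THT and WPG; for `m = 1` apply
THT to `(θ, -β)`, `(ρ_01, -ρ_02)` and negate all second entries of the chain: `rf (-v) = -rf v`, RFL). `b = io (vecMulVec u φ)`, `fm (E ρ_ab) (io M) = -η_ab M b a` (IOT), `M b a = u_b φ_a`: with constants `K, K' ≠ 0`: `m = -2`: `u = (1,1,1,0,0,0)`, `φ = (K, K', -K-K', 0, 0, 0)` (`M 1 0 = K`, `M 0 1 = K'`);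
`m = -1`: `u = (0,1,1,0,0,0)`, `φ = (K, K', -K', 0,0,0)` (`M 1 0 = K`, `M 2 1 = K'`); `m = 0`: `u = (0,1,0,1,0,0)`, `φ = (K, 0, K', 0,0,0)` (`M 1 0`, `M 3 2`); `m = 1`: `u = (0, K, K', 0,0,0)`, `φ = (1,0,0,0,0,0)` (`M 1 0`, `M 2 0`). Transport back (`fm` is invariant). -/
def T11BEX_stmt : Prop := ∀ (n : ℕ) (C : Matrix (Fin n) (Fin n) ℤ) [IsC C] (F : Type) [Field F] (j0 : Fin n) (θ : Fin n → ℤ) (δ : Fin 5 → Fin n),
  IsE C j0 θ δ → ∀ c c' : Lm C F, Ex C c → Ex C c' → (∀ κ : F, c' ≠ κ • c) → ∀ k k' : F, k ≠ 0 → k' ≠ 0 →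
  ∃ b, Ex C b ∧ fm C c b = k ∧ fm C c' b = k'

/-- **SGL** (short-medium). uses: EXF, COL, ACT, XAU. `x_c(1) x_a(1) = x_{a+c}(1)`, and `(a, b)`, `(a+c, b)` have the same `fm`. `c = κ • g (E α)`; take `g = 1` (transport). `hβ`: a root `β` with `(α,β) = 1` (minus the one with `-1`), `a = E β`, `b = σ E (-β)`: `fm a b = σ`, `fm c b = 0` (`fm_E_E`). `a' = a + c = E β + κ E α` is `x_{α-β}(± κ) (E β)`
(ACT: `(α-β, β) = -1`), so extremal; `x_{a+c}(1) = x_α(κ) x_β(1)` (COL). -/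
def T11SGL_stmt : Prop := ∀ (n : ℕ) (C : Matrix (Fin n) (Fin n) ℤ) [IsC C] (F : Type) [Field F],
  (∀ α, ip C α α = 2 → ∃ β, ip C β β = 2 ∧ ip C α β = -1) → ∀ (c : Lm C F) (σ : F), Ex C c → σ ≠ 0 →
  ∃ a b a' : Lm C F, Ex C a ∧ Ex C b ∧ Ex C a' ∧ fm C a b = σ ∧ fm C a' b = σ ∧ ∀ v, xe C c 1 (xe C a 1 v) = xe C a' 1 v

/-- **YCL** (medium). uses: GEO, EXF, TPF, TSY, XAU. The element `Y = x(t) t⁻¹`. GEO: `a, a'`, `Im x a a'`, type `m`. `t` with `IsX a 1 t`; `x t` is `x_{a'}(s)` (`Im`), `s ≠ 0` (`x t ≠ 1`; `t ≠ 1` by the injectivity in EXF). `b = s • a'`: `x t = x_b(1)`, `t⁻¹ = x_{-a}(1)` (XAU). `Tp θ b (-a) m` (TSY, scalars TPF), `fm ≠ 0` iff `m = -2` (TPF). -/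
def T11YCL_stmt : Prop := ∀ (n : ℕ) (C : Matrix (Fin n) (Fin n) ℤ) [IsC C] (F : Type) [Field F] (j0 : Fin n) (θ : Fin n → ℤ) (δ : Fin 5 → Fin n),
  IsE C j0 θ δ → ∀ x : MulAut (EG C F), RA C x → x ≠ 1 → ∃ (t : EG C F) (m : ℤ) (σ : F), (m = -2 ∨ m = -1 ∨ m = 0) ∧ (σ ≠ 0 ↔ m = -2) ∧
    CT C θ m σ ((x t * t⁻¹ : EG C F) : Lm C F ≃ₗ[F] Lm C F)

/-- **GR2** (short-medium; groups). Variant of GRP (`Pool/Agent/*/EXC/GRP.lean`, its proof can be copied): `z` in the group generated by the `g_i Y g_i⁻¹`. -/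
def T11GR2_stmt : Prop := ∀ (G : Type) [Group G] [Finite G] (x : MulAut G) (t : G) (r k : ℕ) (g : Fin k → G) (z : G), 1 ≤ k →
  z ∈ Subgroup.closure (Set.range fun i => g i * (x t * t⁻¹) * (g i)⁻¹) → (∀ m : ℕ, (MulAut.conj z : MulAut G) ^ m = 1 → r ∣ m) →
  2 * k ∈ Pool.Agent.GS.CSet r x

/-! ## B. Lists -/

/-- **XRL** (medium). uses: ACT. `x_α(t)` on `ls l`: by induction on the list; `ip C α p.1 = -1`: `E p ↦ E p + t ε E(α+p)` (ACT), `≥ 0`: fixed; the new entries are roots (`add_root_iff`). -/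
def T11XRL_stmt : Prop := ∀ (n : ℕ) (C : Matrix (Fin n) (Fin n) ℤ) [IsC C] (F : Type) [Field F] (α : Fin n → ℤ) (t : ℤ) (l : List ((Fin n → ℤ) × ℤ)),
  ip C α α = 2 → (∀ p ∈ l, ip C p.1 p.1 = 2 ∧ -1 ≤ ip C α p.1) →
  xe C (E C α) (t : F) (ls C l) = (ls C (xr C α t l) : Lm C F) ∧ ∀ p ∈ xr C α t l, ip C p.1 p.1 = 2

/-- **FML** (short-medium). The form and the coefficients of lists of roots: induction, `fm_E_E`, `cf_E`, bilinearity. -/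
def T11FML_stmt : Prop := ∀ (n : ℕ) (C : Matrix (Fin n) (Fin n) ℤ) [IsC C] (F : Type) [Field F] (l l' : List ((Fin n → ℤ) × ℤ)),
  (∀ p ∈ l, ip C p.1 p.1 = 2) → (∀ p ∈ l', ip C p.1 p.1 = 2) →
  fm C (ls C l) (ls C l' : Lm C F) = (fml l l' : F) ∧ ∀ γ, cf (ls C l : Lm C F) γ = (cfl l γ : F)

/-! ## C. `E₈` -/

/-- **LA8** (medium). uses: ACT. The letters on `em8 v`: linear in `v`; on `E (mu8 i)` use `ta8_spec` (`α + μ_i = μ_j`, sign) and ACT. -/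
def T11LA8_stmt : Prop := ∀ [IsC CartanMatrix.E₈] (F : Type) [Field F] (k : Fin 15) (t : F) (v : Fin 14 → F),
  xe CartanMatrix.E₈ (E CartanMatrix.E₈ (lt8 k)) t (em8 v) = em8 (st8 k t v)

/-- **TR8** (short). uses: ACT. `x_(mu8 j)(t)` fixes `em8 v` (`mu8_ip`). -/
def T11TR8_stmt : Prop := ∀ [IsC CartanMatrix.E₈] (F : Type) [Field F] (j : Fin 14) (t : F) (v : Fin 14 → F),
  xe CartanMatrix.E₈ (E CartanMatrix.E₈ (mu8 j)) t (em8 v) = (em8 v : Lm CartanMatrix.E₈ F)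

/-- **WA8** (short-medium). uses: T11LA8, T11XGS. Words: `gw8 l ∈ GE`; `gw8 (wi8 l) = (gw8 l)⁻¹`, `gw8 (l ++ l') = gw8 l * gw8 l'`; `gw8 l` maps `em8 v` (`v` any, resp. integer coordinates) into the image of `em8`, resp. to `em8 (az8 l v)` (induction; `st8 k t` of integer coordinates is `sz8`, `push_cast`). -/
def T11WA8_stmt : Prop := ∀ [IsC CartanMatrix.E₈] (F : Type) [Field F],
  (∀ α, ip CartanMatrix.E₈ α α = 2 → ∃ β, ip CartanMatrix.E₈ β β = 2 ∧ ip CartanMatrix.E₈ α β = -1) → ∀ l l' : List (Fin 15 × ℤ),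
  gw8 F l ∈ GE CartanMatrix.E₈ F ∧ gw8 F (wi8 l) = (gw8 F l)⁻¹ ∧ gw8 F (l ++ l') = gw8 F l * gw8 F l' ∧
  (∀ v : Fin 14 → F, ∃ w : Fin 14 → F, gw8 F l (em8 v) = em8 w) ∧
  ∀ v : Fin 14 → ℤ, gw8 F l (em8 fun i => (v i : F)) = em8 fun i => (az8 l v i : F)

/-- **TE8** (short-medium). uses: T11WA8, T11XGS, EXF, XAU. The root elements `x_(c8 i)(1)` are the words `tw8 i`: `x_{s g E}(1) = g x_E(s) g⁻¹`. `Ex (c8 i)`. -/
def T11TE8_stmt : Prop := ∀ [IsC CartanMatrix.E₈] (F : Type) [Field F],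
  (∀ α, ip CartanMatrix.E₈ α α = 2 → ∃ β, ip CartanMatrix.E₈ β β = 2 ∧ ip CartanMatrix.E₈ α β = -1) → ∀ i : Fin 5,
  Ex CartanMatrix.E₈ (c8 F i) ∧ IsX CartanMatrix.E₈ (c8 F i) 1 (gw8 F (tw8 i)) ∧
  ∀ g, IsX CartanMatrix.E₈ (c8 F i) 1 g → g = gw8 F (tw8 i)

/-- **CV8** (short-medium). uses: T11XRL, T11FML, T11XGS. The vectors `c8 i` as lists: `gw8 (wd8 i) (E base) = ls (cl8 i)` (`cl8_ok`, XRL for each letter; `fin_cases i`), then `fml8`, `cfl8`, T11FML. -/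
def T11CV8_stmt : Prop := ∀ [IsC CartanMatrix.E₈] (F : Type) [Field F],
  (∀ α, ip CartanMatrix.E₈ α α = 2 → ∃ β, ip CartanMatrix.E₈ β β = 2 ∧ ip CartanMatrix.E₈ α β = -1) →
  fm CartanMatrix.E₈ (c8 F 0) (c8 F 1) = 1 ∧ (∀ κ : F, c8 F 2 ≠ κ • c8 F 3) ∧ ∀ κ : F, c8 F 4 ≠ κ • c8 F 0

/-- **MI8** (short-medium). uses: T11TPR, T11TR8, T11WA8, TPF, XAU, EXF. For `m = -1, 0` there is `b = g_i E (mu8 j)` with `Tp θ (c8 i) b m` (`bs8_mu`, TPR, TPF: `GE` and scalars), and `x_b(1) = g_i x_(mu8 j)(1) g_i⁻¹` is trivial on all `em8 v`. -/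
def T11MI8_stmt : Prop := ∀ [IsC CartanMatrix.E₈] (F : Type) [Field F] (j0 : Fin 8) (δ : Fin 5 → Fin 8), IsE CartanMatrix.E₈ j0 th8 δ →
  ∀ (i : Fin 5) (m : ℤ), (m = -1 ∨ m = 0) → ∃ b : Lm CartanMatrix.E₈ F, Tp CartanMatrix.E₈ th8 (c8 F i) b m ∧
  ∀ g, IsX CartanMatrix.E₈ b 1 g → ∀ v : Fin 14 → F, g (em8 v) = em8 v

/-- **OR8** (short-medium). uses: T11WA8. If `z` acts on the `em8 v` as `gw8 zw8` then `z ^ N = 1` implies `11 ∣ N`: `w = em8 e8v`, `z^11 w = w` (`az8_11`), `z w ≠ w` (`az8_1`: coefficient at `mu8 2`: `-1` against `0`; `mu8` is injective: `decide`). If `11 ∤ N`: `z w = w` by Bezout (`11 a = N b + 1`), or: the minimal period of `w` under `z` divides 11 and is not 1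
(`Function.minimalPeriod`). -/
def T11OR8_stmt : Prop := ∀ [IsC CartanMatrix.E₈] (F : Type) [Field F],
  (∀ α, ip CartanMatrix.E₈ α α = 2 → ∃ β, ip CartanMatrix.E₈ β β = 2 ∧ ip CartanMatrix.E₈ α β = -1) →
  ∀ z : Lm CartanMatrix.E₈ F ≃ₗ[F] Lm CartanMatrix.E₈ F, (∀ v : Fin 14 → F, z (em8 v) = gw8 F zw8 (em8 v)) → ∀ N : ℕ, z ^ N = 1 → 11 ∣ N

/-- **ZM1** (medium). uses: T11TE8, T11MI8, T11OR8, T11WA8, NBR, TPF, EXF. Types `-1, 0`: `y_i = x_(c8 i)(1) x_(b_i)(1)` (MI8), `z = y_0 y_1 y_2 y_3 y_4` acts on `em8 v` as `gw8 zw8` (each `gw8 (tw8 i)` maps `em8 v` to some `em8 w`). `fm (c8 i) b_i = 0` (TPF, `m ≠ -2`). -/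
def T11ZM1_stmt : Prop := ∀ [IsC CartanMatrix.E₈] (F : Type) [Field F] (j0 : Fin 8) (δ : Fin 5 → Fin 8), IsE CartanMatrix.E₈ j0 th8 δ →
  ∀ m : ℤ, (m = -1 ∨ m = 0) → ∃ y : Fin 5 → (Lm CartanMatrix.E₈ F ≃ₗ[F] Lm CartanMatrix.E₈ F),
  (∀ i, CT CartanMatrix.E₈ th8 m 0 (y i)) ∧ ∀ N : ℕ, (y 0 * y 1 * y 2 * y 3 * y 4) ^ N = 1 → 11 ∣ N

/-- **ZM2** (medium). uses: T11TE8, T11CV8, T11OR8, T11WA8, T11BEX, T11SGL, NBR, PCL, TPF, EXF, XAU. Type `-2`, `σ ≠ 0`. `T_i = x_(c8 i)(1)`, `z = T_0 T_1 T_2 T_3 T_4` acts as `gw8 zw8`. `s = 1 - σ`. BEX for `(c8 3, c8 2)`: `b` with `fm (c8 2) b = σ`, `fm (c8 3) b = -σ`; `y_1 = T_2 x_b(1)`, `y_2 = T_3⁻¹ x_b(1)` (`T_3⁻¹ = x_(-c8 3)(1)`): `T_2 T_3 = y_1 y_2⁻¹`.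
Case `s ≠ 0`: `S = x_(s c8 0)(1)`, `y_0 = x_((1-s) c8 0)(1) T_1`, `fm = σ`; `T_0 = S x_((1-s) c8 0)(1)`; BEX for `(c8 0, c8 4)` scaled: `b'` with `fm (c8 4) b' = σ`, `fm (s c8 0) b' = -σ`; `y_3 = T_4 x_{b'}(1)`, `y_4 = S⁻¹ x_{b'}(1)`: `T_4 S = y_3 y_4⁻¹`. `z = S y_0 y_1 y_2⁻¹ T_4`, so `Z = y_0 y_1 y_2⁻¹ y_3 y_4⁻¹ = S⁻¹ z S`, `Z^N = 1` iff `z^N = 1`.
Case `s = 0` (`σ = 1`): `y_0 = T_0 T_1`, SGL for `c8 4`: `T_4 x_a(1) = x_{a'}(1)`, `y_3 = x_{a'}(1) x_b(1)`, `y_4 = x_a(1) x_b(1)`: `T_4 = y_3 y_4⁻¹`, `Z = z`. Types: `fm ≠ 0` means type `-2` (PCL, TPF). -/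
def T11ZM2_stmt : Prop := ∀ [IsC CartanMatrix.E₈] (F : Type) [Field F] (j0 : Fin 8) (δ : Fin 5 → Fin 8), IsE CartanMatrix.E₈ j0 th8 δ →
  ∀ σ : F, σ ≠ 0 → ∃ y : Fin 5 → (Lm CartanMatrix.E₈ F ≃ₗ[F] Lm CartanMatrix.E₈ F),
  (∀ i, CT CartanMatrix.E₈ th8 (-2) σ (y i)) ∧ ∀ N : ℕ, (y 0 * y 1 * (y 2)⁻¹ * y 3 * (y 4)⁻¹) ^ N = 1 → 11 ∣ N

/-- **B11** (medium). uses: T11YCL, T11CNJ, T11GR2, T11ZM1, T11ZM2, DE8, NBR, FIX, EXF. Assembly. YCL gives `t, m, σ`. ZM1 (`m = -1, 0`, then `σ = 0`) or ZM2 (`m = -2`) give `y_i` in the class `CT m σ`; CNJ: `y_i = h_i Y h_i⁻¹` with `h_i ∈ GE` (`x_{ha}(1) = h x_a(1) h⁻¹`, EXF), so `Z` is in the closure of the `h_i Y h_i⁻¹`.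
`conj Z ^ N = 1`: `Z^N` is central, so `1` (FIX), so `11 ∣ N`. GR2 with `k = 5`. -/
def T11_stmt : Prop := ∀ [IsC CartanMatrix.E₈] (F : Type) [Field F] [Finite F] (x : MulAut (EG CartanMatrix.E₈ F)), RA CartanMatrix.E₈ x → x ≠ 1 →
  10 ∈ Pool.Agent.GS.CSet 11 x

end Pool.Agent.EXC
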