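import Pool.Agent.helper17.EXC.Spec

/-!
# Project EXC (MP_561ff4_al), block `r = 11` in `E₈(q)`: definitions and the explicit data (all finite checks are done here)

The grading of `L(E₈)` by the coefficient of the node `0` has the 14-dimensional piece `L_2` (roots `mu8 i`), the natural module of the
subsystem `D₇` (roots with the coefficient `0`). The product of the five root elements `x_(c8 i)(1)`, `c8 i = ± g_i E (base)`, `g_i` a word
in letters `x_(lt8 k)(t)`, `t ∈ ℤ`, acts on `L_2` with order 11, over `ℤ` and so over every field.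
-/

set_option autoImplicit false

open Finset

namespace Pool.Agent.EXC

section general
variable {n : ℕ} (C : Matrix (Fin n) (Fin n) ℤ) [IsC C] {F : Type} [Field F]

/-- `y = x_a(1) x_b(1)`, the pair `(a, b)` has type `m`, `fm a b = σ` -/
def CT (θ : Fin n → ℤ) (m : ℤ) (σ : F) (y : Lm C F ≃ₗ[F] Lm C F) : Prop :=
  ∃ (a b : Lm C F) (g h : Lm C F ≃ₗ[F] Lm C F), Tp C θ a b m ∧ fm C a b = σ ∧ IsX C a 1 g ∧ IsX C b 1 h ∧ y = g * h

open Classical in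
/-- the root element `x_α(t)` as a linear bijection (row XGS: it satisfies `IsX` for a root `α`) -/
noncomputable def XG (α : Fin n → ℤ) (t : F) : Lm C F ≃ₗ[F] Lm C F :=
  if h : ∃ g, IsX C (E C α) t g then h.choose else 1

/-- the element `∑ p.2 E p.1` -/
noncomputable def ls (l : List ((Fin n → ℤ) × ℤ)) : Lm C F := (l.map fun p => (p.2 : F) • (E C p.1 : Lm C F)).sum

/-- `x_α(t)` on lists, if all products with `α` are `≥ -1` -/
def xr (α : Fin n → ℤ) (t : ℤ) (l : List ((Fin n → ℤ) × ℤ)) : List ((Fin n → ℤ) × ℤ) :=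
  l.flatMap fun p => if ip C α p.1 = -1 then [p, (α + p.1, t * sg C α p.1 * p.2)] else [p]

/-- the form on lists -/
def fml (l l' : List ((Fin n → ℤ) × ℤ)) : ℤ := (l.map fun p => (l'.map fun q => if q.1 = -p.1 then p.2 * q.2 else 0).sum).sum

/-- the coefficient of a list -/
def cfl (l : List ((Fin n → ℤ) × ℤ)) (γ : Fin n → ℤ) : ℤ := (l.map fun p => if γ = p.1 then p.2 else 0).sum

end general

/-! ## The data -/

/-- the highest root of `E₈` -/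
def th8 : Fin 8 → ℤ := ![2, 3, 4, 6, 5, 4, 3, 2]

/-- the 14 roots with the coefficient 2 at the node 0 -/
def mu8 : Fin 14 → Fin 8 → ℤ :=
  ![![2, 3, 3, 5, 4, 3, 2, 1], ![2, 3, 4, 5, 4, 3, 2, 1], ![2, 3, 4, 6, 4, 3, 2, 1], ![2, 3, 4, 6, 5, 3, 2, 1],
    ![2, 3, 4, 6, 5, 4, 2, 1], ![2, 3, 4, 6, 5, 4, 3, 1], ![2, 3, 4, 6, 5, 4, 3, 2], ![2, 2, 4, 5, 4, 3, 2, 1],
    ![2, 2, 3, 5, 4, 3, 2, 1], ![2, 2, 3, 4, 4, 3, 2, 1], ![2, 2, 3, 4, 3, 3, 2, 1], ![2, 2, 3, 4, 3, 2, 2, 1],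
    ![2, 2, 3, 4, 3, 2, 1, 1], ![2, 2, 3, 4, 3, 2, 1, 0]]

/-- the 15 letters (roots of `D₇`) -/
def lt8 : Fin 15 → Fin 8 → ℤ :=
  ![![0, 0, 0, 0, 0, 1, 1, 0], ![0, 1, 0, 1, 1, 0, 0, 0], ![0, 1, 1, 1, 1, 0, 0, 0], ![0, 0, 0, 0, -1, -1, -1, 0],
    ![0, -1, 0, -1, 0, 0, 0, 0], ![0, 0, -1, -1, -1, -1, 0, 0], ![0, 1, 1, 1, 0, 0, 0, 0], ![0, -1, -1, -2, -2, -2, -1, 0],
    ![0, 1, 1, 2, 2, 1, 0, 0], ![0, 0, 0, 1, 1, 0, 0, 0], ![0, 0, -1, -1, -1, 0, 0, 0], ![0, 0, 0, -1, -1, -1, -1, 0],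
    ![0, 0, 0, 0, 0, 1, 0, 0], ![0, 1, 1, 2, 1, 0, 0, 0], ![0, 0, 0, 0, 0, 0, 1, 0]]

/-- the action of the letter `k` on the 14 root vectors: `E (mu8 i) ↦ E (mu8 i) + t ε E (mu8 j)` for the two entries `(i, j, ε)` -/
def ta8 : Fin 15 → Fin 14 × Fin 14 × ℤ × Fin 14 × Fin 14 × ℤ :=
  ![(3, 5, 1, 12, 10, -1), (7, 3, -1, 10, 0, -1), (8, 3, -1, 10, 1, 1), (5, 2, 1, 9, 12, -1), (0, 9, -1, 2, 7, -1),
    (4, 0, 1, 7, 11, 1), (8, 2, 1, 9, 1, -1), (4, 12, 1, 5, 11, -1), (10, 4, 1, 11, 3, -1), (1, 3, 1, 10, 8, -1),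
    (3, 0, -1, 7, 10, -1), (5, 1, -1, 8, 12, 1), (3, 4, -1, 11, 10, 1), (9, 3, 1, 10, 2, -1), (4, 5, -1, 12, 11, 1)]

/-- the words `g_i` (letter, integer parameter) -/
def wd8 : Fin 5 → List (Fin 15 × ℤ) :=
  ![[(1, 1), (2, 1), (3, 1)], [(5, -1), (6, 3)], [(8, -1)], [(10, 1), (11, -1)], [(13, -1), (14, -3)]]

/-- the base letter of the root element `i` -/
def bs8 : Fin 5 → Fin 15 := ![0, 4, 7, 9, 12]

/-- the parameter of the root element `i` -/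
def sb8 : Fin 5 → ℤ := ![-1, -1, 1, -1, -1]

/-- the inverse word -/
def wi8 (l : List (Fin 15 × ℤ)) : List (Fin 15 × ℤ) := (l.map fun p => (p.1, -p.2)).reverse

/-- the word of the root element `i` -/
def tw8 (i : Fin 5) : List (Fin 15 × ℤ) := wd8 i ++ [(bs8 i, sb8 i)] ++ wi8 (wd8 i)

/-- the word of the product of the five root elements -/
def zw8 : List (Fin 15 × ℤ) := tw8 0 ++ tw8 1 ++ tw8 2 ++ tw8 3 ++ tw8 4

/-- the action of a letter on the coordinates -/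
def st8 {R : Type} [CommRing R] (k : Fin 15) (t : R) (v : Fin 14 → R) : Fin 14 → R :=
  fun j => v j + (if j = (ta8 k).2.1 then t * ((ta8 k).2.2.1 : R) * v (ta8 k).1 else 0) +
    (if j = (ta8 k).2.2.2.2.1 then t * ((ta8 k).2.2.2.2.2 : R) * v (ta8 k).2.2.2.1 else 0)

/-- the same over `ℤ`, without casts -/
def sz8 (k : Fin 15) (t : ℤ) (v : Fin 14 → ℤ) : Fin 14 → ℤ :=
  fun j => v j + (if j = (ta8 k).2.1 then t * (ta8 k).2.2.1 * v (ta8 k).1 else 0) +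
    (if j = (ta8 k).2.2.2.2.1 then t * (ta8 k).2.2.2.2.2 * v (ta8 k).2.2.2.1 else 0)

/-- the action of a word on integer coordinates (the first letter acts last) -/
def az8 (l : List (Fin 15 × ℤ)) (v : Fin 14 → ℤ) : Fin 14 → ℤ := l.foldr (fun p v => sz8 p.1 p.2 v) v

/-- the vector `E (mu8 3)` -/
def e8v : Fin 14 → ℤ := ![0, 0, 0, 1, 0, 0, 0, 0, 0, 0, 0, 0, 0, 0]

/-! ## The finite checks -/

theorem mu8_root : ∀ i, ip CartanMatrix.E₈ (mu8 i) (mu8 i) = 2 := by decide +kernel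

theorem mu8_ip : ∀ i j, 0 ≤ ip CartanMatrix.E₈ (mu8 i) (mu8 j) := by decide +kernel

theorem lt8_root : ∀ k, ip CartanMatrix.E₈ (lt8 k) (lt8 k) = 2 := by decide +kernel

/-- the table `ta8` is correct: `i` is the first source, or the second source, or the letter fixes `E (mu8 i)` -/
theorem ta8_spec : ∀ k i, (i = (ta8 k).1 ∧ i ≠ (ta8 k).2.2.2.1 ∧ ip CartanMatrix.E₈ (lt8 k) (mu8 i) = -1 ∧ mu8 (ta8 k).2.1 = lt8 k + mu8 i ∧
      sg CartanMatrix.E₈ (lt8 k) (mu8 i) = (ta8 k).2.2.1) ∨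
    (i = (ta8 k).2.2.2.1 ∧ i ≠ (ta8 k).1 ∧ ip CartanMatrix.E₈ (lt8 k) (mu8 i) = -1 ∧ mu8 (ta8 k).2.2.2.2.1 = lt8 k + mu8 i ∧
      sg CartanMatrix.E₈ (lt8 k) (mu8 i) = (ta8 k).2.2.2.2.2) ∨
    (i ≠ (ta8 k).1 ∧ i ≠ (ta8 k).2.2.2.1 ∧ 0 ≤ ip CartanMatrix.E₈ (lt8 k) (mu8 i)) := by decide +kernel

/-- for every base root there are a `mu8 j` with the product `-1` and one with the product `0` -/
theorem bs8_mu : ∀ i : Fin 5, (∃ j, ip CartanMatrix.E₈ (lt8 (bs8 i)) (mu8 j) = -1) ∧ ∃ j, ip CartanMatrix.E₈ (lt8 (bs8 i)) (mu8 j) = 0 := by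
  decide +kernel

set_option maxRecDepth 100000 in
/-- the product of the five root elements: its 11th power fixes `E (mu8 3)` -/
theorem az8_11 : (az8 zw8)^[11] e8v = e8v := by decide +kernel

set_option maxRecDepth 100000 in
/-- and it moves `E (mu8 3)`: the coordinate 2 of the image is `-1` -/
theorem az8_1 : az8 zw8 e8v 2 = -1 ∧ e8v 2 = 0 := by decide +kernel

/-- the vectors `g_i E (base)` as lists -/
def cl8 (i : Fin 5) : List ((Fin 8 → ℤ) × ℤ) := (wd8 i).foldr (fun p l => xr CartanMatrix.E₈ (lt8 p.1) p.2 l) [(lt8 (bs8 i), 1)]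

/-- all entries of a list are roots with products `≥ -1` with `α` -/
def okl (α : Fin 8 → ℤ) (l : List ((Fin 8 → ℤ) × ℤ)) : Prop := ∀ p ∈ l, ip CartanMatrix.E₈ p.1 p.1 = 2 ∧ -1 ≤ ip CartanMatrix.E₈ α p.1

instance (α : Fin 8 → ℤ) (l : List ((Fin 8 → ℤ) × ℤ)) : Decidable (okl α l) := by unfold okl; infer_instance

/-- in the computation of `cl8` all products are `≥ -1` (for every tail of a word) -/
theorem cl8_ok : ∀ i : Fin 5, ∀ j : Fin 3, ∀ p ∈ ((wd8 i).drop j).head?,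
    okl (lt8 p.1) (((wd8 i).drop (j + 1)).foldr (fun p l => xr CartanMatrix.E₈ (lt8 p.1) p.2 l) [(lt8 (bs8 i), 1)]) := by
  decide +kernel

theorem fml8 : sb8 0 * sb8 1 * fml (cl8 0) (cl8 1) = 1 := by decide +kernel

theorem cfl8 : cfl (cl8 2) ![0, -1, -1, -2, -2, -2, -1, 0] = 1 ∧ cfl (cl8 3) ![0, -1, -1, -2, -2, -2, -1, 0] = 0 ∧
    cfl (cl8 4) ![0, 0, 0, 0, 0, 1, 0, 0] = 1 ∧ cfl (cl8 0) ![0, 0, 0, 0, 0, 1, 0, 0] = 0 := by decide +kernel

theorem th8_eq : mu8 6 = th8 := by decide +kernel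

section data
variable [IsC CartanMatrix.E₈] {F : Type} [Field F]

/-- the vector with the coordinates `v` on `E (mu8 i)` -/
noncomputable def em8 (v : Fin 14 → F) : Lm CartanMatrix.E₈ F := ∑ i, v i • (E CartanMatrix.E₈ (mu8 i) : Lm CartanMatrix.E₈ F)

variable (F) in
/-- the element of the group of a word -/
noncomputable def gw8 (l : List (Fin 15 × ℤ)) : Lm CartanMatrix.E₈ F ≃ₗ[F] Lm CartanMatrix.E₈ F :=
  (l.map fun p => XG CartanMatrix.E₈ (lt8 p.1) (p.2 : F)).prod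

variable (F) in
/-- the extremal vectors `c_i` -/
noncomputable def c8 (i : Fin 5) : Lm CartanMatrix.E₈ F :=
  (sb8 i : F) • gw8 F (wd8 i) (E CartanMatrix.E₈ (lt8 (bs8 i)))

end data

end Pool.Agent.EXC
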